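import Mathlib

/-! Definitions: weakly almost periodic functions, left invariant means, the fixed point property (F). -/

open Filter Topology
open scoped BoundedContinuousFunction ComplexOrder

namespace Pool.Agent.Helper446_WAP

universe u v w

noncomputable section

section WAP

variable (𝕜 : Type*) [RCLike 𝕜] {S : Type u} [TopologicalSpace S] [Mul S] [SeparatelyContinuousMul S]

variable {𝕜} in
/-- the left translate `ℓ_a f (t) = f (a t)` of `f ∈ C_b(S)` -/
def leftTranslate (a : S) (f : S →ᵇ 𝕜) : S →ᵇ 𝕜 :=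
  f.compContinuous ⟨fun t => a * t, continuous_const_mul a⟩

variable {𝕜} in
@[simp] lemma leftTranslate_apply (a : S) (f : S →ᵇ 𝕜) (t : S) : leftTranslate a f t = f (a * t) := rfl

variable {𝕜} in
/-- `f ∈ C_b(S)` is weakly almost periodic: its orbit `{ℓ_a f : a ∈ S}` is relatively compact in the weak
topology of `C_b(S)` -/
def IsWAP (f : S →ᵇ 𝕜) : Prop :=
  IsCompact (closure (toWeakSpace 𝕜 (S →ᵇ 𝕜) '' Set.range fun a : S => leftTranslate a f))

lemma isWAP_zero : IsWAP (0 : S →ᵇ 𝕜) := by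
  refine (isCompact_singleton (x := toWeakSpace 𝕜 (S →ᵇ 𝕜) 0)).closure_of_subset ?_
  rintro _ ⟨_, ⟨a, rfl⟩, rfl⟩
  exact congrArg _ (by ext t; rfl)

variable {𝕜} in
lemma IsWAP.add {f g : S →ᵇ 𝕜} (hf : IsWAP f) (hg : IsWAP g) : IsWAP (f + g) := by
  refine (IsCompact.add hf hg).closure_of_subset ?_
  rintro _ ⟨_, ⟨a, rfl⟩, rfl⟩
  refine Set.mem_add.2 ⟨_, subset_closure ⟨_, ⟨a, rfl⟩, rfl⟩, _, subset_closure ⟨_, ⟨a, rfl⟩, rfl⟩, ?_⟩
  rw [← map_add]
  exact congrArg _ (by ext t; rfl)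

variable {𝕜} in
lemma IsWAP.smul (c : 𝕜) {f : S →ᵇ 𝕜} (hf : IsWAP f) : IsWAP (c • f) := by
  refine (IsCompact.image hf (continuous_const_smul c)).closure_of_subset ?_
  rintro _ ⟨_, ⟨a, rfl⟩, rfl⟩
  refine ⟨_, subset_closure ⟨_, ⟨a, rfl⟩, rfl⟩, ?_⟩
  show c • toWeakSpace 𝕜 (S →ᵇ 𝕜) (leftTranslate a f) = _
  rw [← map_smul]
  exact congrArg _ (by ext t; rfl)

variable (S) in
/-- the space `WAP(S)` of weakly almost periodic functions, a linear subspace of `C_b(S)` -/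
def WAP : Submodule 𝕜 (S →ᵇ 𝕜) where
  carrier := {f | IsWAP f}
  zero_mem' := isWAP_zero 𝕜
  add_mem' := fun hf hg => hf.add hg
  smul_mem' := fun c _ hf => hf.smul c

lemma one_mem_WAP : (1 : S →ᵇ 𝕜) ∈ WAP 𝕜 S := by
  refine (isCompact_singleton (x := toWeakSpace 𝕜 (S →ᵇ 𝕜) 1)).closure_of_subset ?_
  rintro _ ⟨_, ⟨a, rfl⟩, rfl⟩
  exact congrArg _ (by ext t; rfl)

end WAP

section LIM

variable (𝕜 : Type*) [RCLike 𝕜] {S : Type u} [TopologicalSpace S] [Semigroup S]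
  [SeparatelyContinuousMul S]

variable {𝕜} in
lemma leftTranslate_mem_WAP (s : S) {f : S →ᵇ 𝕜} (hf : f ∈ WAP 𝕜 S) : leftTranslate s f ∈ WAP 𝕜 S := by
  refine IsCompact.closure_of_subset hf ?_
  rintro _ ⟨_, ⟨a, rfl⟩, rfl⟩
  refine subset_closure ⟨_, ⟨s * a, rfl⟩, ?_⟩
  exact congrArg _ (by ext t; simp [mul_assoc])

variable {𝕜} in
/-- `m` is a left invariant mean on `WAP(S)`: `m ≥ 0`, `m(1) = 1`, `m(ℓ_s f) = m(f)` -/
structure IsLIM (m : WAP 𝕜 S →ₗ[𝕜] 𝕜) : Prop where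
  nonneg : ∀ f : WAP 𝕜 S, (∀ t : S, 0 ≤ f.1 t) → 0 ≤ m f
  map_one : m ⟨1, one_mem_WAP 𝕜⟩ = 1
  invariant : ∀ (s : S) (f : WAP 𝕜 S), m ⟨leftTranslate s f.1, leftTranslate_mem_WAP s f.2⟩ = m f

end LIM

/-- a representation `T` of `S` by self-maps of a space `K` (below `K = (C, weak)`) which is separately continuous
and quasi-equicontinuous: every map in the closure of `{T_s}` in the product space `K^K` is continuous -/
structure IsRep {S : Type u} [TopologicalSpace S] [Mul S] {K : Type v} [TopologicalSpace K]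
    (T : S → K → K) : Prop where
  map_mul : ∀ s t, T (s * t) = T s ∘ T t
  continuous_map : ∀ s, Continuous (T s)
  continuous_orbit : ∀ x, Continuous fun s => T s x
  quasi : ∀ g ∈ closure (Set.range T), Continuous g

/-- the set `C ⊆ E` as a subset of `E` with the weak topology `σ(E, E^*)` -/
def wk (𝕂 : Type*) [RCLike 𝕂] {E : Type v} [AddCommGroup E] [Module 𝕂 E] [TopologicalSpace E]
    (C : Set E) : Set (WeakSpace 𝕂 E) := toWeakSpace 𝕂 E '' C

/-- `T` is `Q`-nonexpansive: `q(T_s x - T_s y) ≤ q(x - y)` for all `q` in the family `Q` -/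
def QNonexpansive {𝕂 : Type*} [RCLike 𝕂] {E : Type v} [AddCommGroup E] [Module 𝕂 E]
    [TopologicalSpace E] {ι : Type w} (Q : SeminormFamily 𝕂 E ι) {C : Set E} {S : Type u}
    (T : S → wk 𝕂 C → wk 𝕂 C) : Prop :=
  ∀ i s x y, Q i ((toWeakSpace 𝕂 E).symm (T s x) - (toWeakSpace 𝕂 E).symm (T s y)) ≤
    Q i ((toWeakSpace 𝕂 E).symm x - (toWeakSpace 𝕂 E).symm y)

/-- Property (F) (for spaces over the scalar field `𝕂`, real or complex): every weakly separately continuous,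
weakly quasi-equicontinuous, `Q`-nonexpansive representation of `S` on a nonempty weakly compact convex subset `C` of
a Hausdorff locally convex space `(E, Q)` has a common fixed point. -/
def PropertyF (𝕂 : Type*) [RCLike 𝕂] (S : Type u) [TopologicalSpace S] [Mul S] : Prop :=
  ∀ (E : Type v) [AddCommGroup E] [Module 𝕂 E] [Module ℝ E] [IsScalarTower ℝ 𝕂 E] [TopologicalSpace E]
    [T2Space E] (ι : Type w) (Q : SeminormFamily 𝕂 E ι), WithSeminorms Q →
  ∀ C : Set E, C.Nonempty → Convex ℝ C → IsCompact (wk 𝕂 C) →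
  ∀ T : S → wk 𝕂 C → wk 𝕂 C, IsRep T → QNonexpansive Q T → ∃ x, ∀ s, T s x = x

end

end Pool.Agent.Helper446_WAP
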