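import Mathlib

/-! Compact sets are fragmented by seminorms which are suprema of continuous functionals (Cantor scheme),
total boundedness of homogeneous sets, and the centre argument. -/

open Filter Topology

namespace Pool.Agent.Helper446_WAP

lemma uncountable_branches : Uncountable (ℕ → Bool) := by
  rw [← Cardinal.aleph0_lt_mk_iff]
  simp only [Cardinal.mk_pi, Cardinal.mk_bool, Cardinal.prod_const, Cardinal.lift_id, Cardinal.mk_nat]
  exact Cardinal.cantor _

section frag

variable {W : Type*} [AddCommGroup W] [Module ℝ W] [TopologicalSpace W] {q : Seminorm ℝ W}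

/-- the standing hypothesis: `q` is the supremum of the continuous functionals it dominates -/
def HB (q : Seminorm ℝ W) : Prop :=
  ∀ z : W, ∃ φ : W → ℝ, Continuous φ ∧ (∀ x y, φ (x - y) = φ x - φ y) ∧ (∀ v, |φ v| ≤ q v) ∧ φ z = q z

/-- closures of countable sets are `q`-separable -/
def Sepa (q : Seminorm ℝ W) : Prop :=
  ∀ D : Set W, D.Countable → ∃ c : Set W, c.Countable ∧ ∀ z ∈ closure D, ∀ δ : ℝ, 0 < δ → ∃ u ∈ c,
    q (z - u) < δ

/-- fragmentability -/
theorem frag (hHB : HB q) (hSep : Sepa q) {K : Set W} (hK : IsCompact K) (hne : K.Nonempty)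
    {ε : ℝ} (hε : 0 < ε) :
    ∃ U : Set W, IsOpen U ∧ (U ∩ K).Nonempty ∧ ∀ x ∈ U ∩ K, ∀ y ∈ U ∩ K, q (x - y) ≤ ε := by
  by_contra hcon
  push Not at hcon
  let P : Type _ := {U : Set W // IsOpen U ∧ (U ∩ K).Nonempty}
  have step : ∀ U : P, ∃ V : Bool → P, (∀ b, (V b).1 ⊆ U.1) ∧
      ∀ z ∈ closure (V true).1, ∀ z' ∈ closure (V false).1, ε ≤ q (z - z') := by
    intro U
    obtain ⟨x, hx, y, hy, hxy⟩ := hcon U.1 U.2.1 U.2.2
    obtain ⟨φ, hφc, hφs, hφq, hφz⟩ := hHB (x - y)
    rw [hφs] at hφz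
    set δ : ℝ := (φ x - φ y - ε) / 2 with hδ
    have hδ0 : 0 < δ := by
      rw [hδ]
      linarith
    let V1 : P := ⟨U.1 ∩ {z | φ x - δ < φ z}, U.2.1.inter (isOpen_lt continuous_const hφc),
      ⟨x, ⟨hx.1, by show φ x - δ < φ x; linarith⟩, hx.2⟩⟩
    let V0 : P := ⟨U.1 ∩ {z | φ z < φ y + δ}, U.2.1.inter (isOpen_lt hφc continuous_const),
      ⟨y, ⟨hy.1, by show φ y < φ y + δ; linarith⟩, hy.2⟩⟩
    refine ⟨fun b => if b then V1 else V0, fun b => ?_, fun z hz z' hz' => ?_⟩
    · cases b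
      · exact Set.inter_subset_left
      · exact Set.inter_subset_left
    · have h1 : φ x - δ ≤ φ z := by
        have : z ∈ {z | φ x - δ ≤ φ z} := by
          refine closure_minimal ?_ (isClosed_le continuous_const hφc) hz
          intro w hw
          have hw' : w ∈ V1.1 := hw
          have hw2 : φ x - δ < φ w := hw'.2
          exact hw2.le
        exact this
      have h2 : φ z' ≤ φ y + δ := by
        have : z' ∈ {z | φ z ≤ φ y + δ} := by
          refine closure_minimal ?_ (isClosed_le hφc continuous_const) hz'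
          intro w hw
          have hw' : w ∈ V0.1 := hw
          have hw2 : φ w < φ y + δ := hw'.2
          exact hw2.le
        exact this
      have h3 := (le_abs_self _).trans (hφq (z - z'))
      rw [hφs] at h3
      have h4 : 2 * δ = φ x - φ y - ε := by rw [hδ]; ring
      linarith
  choose V hV1 hV2 using step
  let Wt : List Bool → P := fun l => List.rec ⟨Set.univ, isOpen_univ, by simpa using hne⟩
    (fun b _ U => V U b) l
  have hWt : ∀ b l, Wt (b :: l) = V (Wt l) b := fun b l => rfl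
  have hd : ∀ l, ∃ x, x ∈ (Wt l).1 ∩ K := fun l => (Wt l).2.2
  choose d hd using hd
  let br : (ℕ → Bool) → ℕ → List Bool := fun b n => Nat.rec [] (fun n l => b n :: l) n
  have hbr : ∀ b n, br b (n + 1) = b n :: br b n := fun b n => rfl
  have hanti : ∀ b, Antitone fun n => (Wt (br b n)).1 := by
    intro b
    refine antitone_nat_of_succ_le fun n => ?_
    rw [hbr, hWt]
    exact hV1 _ _
  have hx : ∀ b : ℕ → Bool, ∃ x, x ∈ closure (Set.range d) ∧ ∀ m, x ∈ closure (Wt (br b m)).1 := by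
    intro b
    obtain ⟨x, _, hx⟩ := hK.ultrafilter_le_nhds
      ((Filter.hyperfilter ℕ).map fun n => d (br b n)) (by
        rw [Ultrafilter.coe_map, le_principal_iff, mem_map]
        exact Filter.univ_mem' fun n => (hd (br b n)).2)
    rw [Ultrafilter.coe_map] at hx
    have hx' : Tendsto (fun n => d (br b n)) (Filter.hyperfilter ℕ : Filter ℕ) (𝓝 x) := hx
    refine ⟨x, mem_closure_of_tendsto hx' (Eventually.of_forall fun n => Set.mem_range_self _),
      fun m => mem_closure_of_tendsto hx' ?_⟩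
    have h1 : ∀ᶠ n in (Filter.hyperfilter ℕ : Filter ℕ), m ≤ n := by
      exact Nat.hyperfilter_le_atTop (eventually_ge_atTop m)
    filter_upwards [h1] with n hn
    exact hanti b hn (hd (br b n)).1
  choose x hx1 hx2 using hx
  obtain ⟨c, hc, hcd⟩ := hSep (Set.range d) (Set.countable_range d)
  have hu : ∀ b, ∃ u ∈ c, q (x b - u) < ε / 2 := fun b => hcd _ (hx1 b) _ (by linarith)
  choose u huc hu using hu
  have hinj : Function.Injective fun b => (⟨u b, huc b⟩ : c) := by
    intro b b' hbb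
    have hbb' : u b = u b' := congrArg Subtype.val hbb
    by_contra hne
    have hex : ∃ n, b n ≠ b' n := by
      by_contra h
      push Not at h
      exact hne (funext h)
    classical
    let m := Nat.find hex
    have hm : b m ≠ b' m := Nat.find_spec hex
    have hlt : ∀ k < m, b k = b' k := fun k hk => by
      by_contra h
      exact Nat.find_min hex hk h
    have hbrm : ∀ k ≤ m, br b k = br b' k := by
      intro k
      induction k with
      | zero => intro _; rfl
      | succ k ih =>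
        intro hk
        rw [hbr, hbr, ih (by omega), hlt k (by omega)]
    have h1 := hx2 b (m + 1)
    have h2 := hx2 b' (m + 1)
    rw [hbr, hWt] at h1 h2
    rw [← hbrm m le_rfl] at h2
    have h3 : ε ≤ q (x b - x b') := by
      rcases Bool.eq_false_or_eq_true (b m) with hb | hb
      · have hb' : b' m = false := by
          cases h : b' m
          · rfl
          · exact absurd (hb.trans h.symm) hm
        rw [hb] at h1
        rw [hb'] at h2
        exact hV2 _ _ h1 _ h2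
      · have hb' : b' m = true := by
          cases h : b' m
          · exact absurd (hb.trans h.symm) hm
          · rfl
        rw [hb] at h1
        rw [hb'] at h2
        have := hV2 _ _ h2 _ h1
        rwa [map_sub_rev] at this
    have h4 : q (x b - x b') ≤ q (x b - u b) + q (x b' - u b') := by
      have e : x b - x b' = (x b - u b) - (x b' - u b') := by
        rw [hbb']
        abel
      rw [e]
      exact map_sub_le_add q _ _
    linarith [hu b, hu b']
  have hcount : Countable (ℕ → Bool) := by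
    have : Countable c := hc.to_subtype
    exact hinj.countable
  exact (not_countable_iff.2 uncountable_branches) hcount

/-- a compact set which is homogeneous under `q`-isometric homeomorphisms is `q`-totally bounded -/
theorem totally_bounded (hHB : HB q) (hSep : Sepa q) {F : Set W} (hF : IsCompact F) (hne : F.Nonempty)
    (hom : ∀ y ∈ F, ∀ z ∈ F, ∃ h : W → W, Set.MapsTo h F F ∧ ContinuousOn h F ∧ h y = z ∧
      ∀ w ∈ F, ∀ w' ∈ F, q (w - w') ≤ q (h w - h w'))
    {ε : ℝ} (hε : 0 < ε) : ∃ t : Finset W, (∀ z ∈ t, z ∈ F) ∧ ∀ y ∈ F, ∃ z ∈ t, q (y - z) ≤ ε := by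
  obtain ⟨U, hUo, ⟨y0, hy0U, hy0F⟩, hU⟩ := frag hHB hSep hF hne hε
  have h1 : ∀ y ∈ F, ∃ V ∈ 𝓝[F] y, ∀ w ∈ V ∩ F, q (w - y) ≤ ε := by
    intro y hy
    obtain ⟨h, hmaps, hcont, hyz, hiso⟩ := hom y hy y0 hy0F
    refine ⟨h ⁻¹' U, hcont y hy (by rw [hyz]; exact hUo.mem_nhds hy0U), ?_⟩
    rintro w ⟨hw1, hw2⟩
    refine (hiso w hw2 y hy).trans (hU _ ⟨hw1, hmaps hw2⟩ _ ⟨?_, hmaps hy⟩)
    rw [hyz]
    exact hy0U
  choose! V hV1 hV2 using h1
  obtain ⟨t, ht, hcov⟩ := hF.elim_nhdsWithin_subcover V hV1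
  refine ⟨t, ht, fun y hy => ?_⟩
  have h2 := hcov hy
  simp only [Set.mem_iUnion] at h2
  obtain ⟨z, hz, hyz⟩ := h2
  exact ⟨z, hz, hV2 z (ht z hz) y ⟨hyz, hy⟩⟩

omit [TopologicalSpace W] in
/-- the centre of a totally bounded set -/
theorem exists_center {F : Set W} (htb : ∀ ε : ℝ, 0 < ε → ∃ t : Finset W, (∀ z ∈ t, z ∈ F) ∧
      ∀ y ∈ F, ∃ z ∈ t, q (y - z) ≤ ε) {a₀ b₀ : W} (ha₀ : a₀ ∈ F) (hb₀ : b₀ ∈ F)
    (h0 : 0 < q (a₀ - b₀)) :
    ∃ u ∈ convexHull ℝ F, ∃ r : ℝ, (∀ y ∈ F, q (u - y) ≤ r) ∧ ∃ a ∈ F, ∃ b ∈ F, r < q (a - b) := by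
  classical
  -- boundedness
  have hbdd : BddAbove {s : ℝ | ∃ a ∈ F, ∃ b ∈ F, s = q (a - b)} := by
    obtain ⟨t, ht, hcov⟩ := htb 1 one_pos
    refine ⟨1 + (∑ z ∈ t, ∑ z' ∈ t, q (z - z')) + 1, ?_⟩
    rintro _ ⟨a, ha, b, hb, rfl⟩
    obtain ⟨z, hz, haz⟩ := hcov a ha
    obtain ⟨z', hz', hbz⟩ := hcov b hb
    have e : a - b = (a - z) + (z - z') - (b - z') := by abel
    have h1 : q (a - b) ≤ q (a - z) + q (z - z') + q (b - z') := by
      rw [e]
      refine (map_sub_le_add q _ _).trans ?_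
      have := map_add_le_add q (a - z) (z - z')
      linarith
    have h2 : q (z - z') ≤ ∑ z ∈ t, ∑ z' ∈ t, q (z - z') :=
      (Finset.single_le_sum (f := fun z' => q (z - z')) (fun _ _ => apply_nonneg q _) hz').trans
        (Finset.single_le_sum (f := fun z => ∑ z' ∈ t, q (z - z'))
          (fun _ _ => Finset.sum_nonneg fun _ _ => apply_nonneg q _) hz)
    linarith
  set D : ℝ := sSup {s : ℝ | ∃ a ∈ F, ∃ b ∈ F, s = q (a - b)} with hD
  have hDle : ∀ a ∈ F, ∀ b ∈ F, q (a - b) ≤ D := fun a ha b hb =>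
    le_csSup hbdd ⟨a, ha, b, hb, rfl⟩
  have hD0 : 0 < D := h0.trans_le (hDle _ ha₀ _ hb₀)
  obtain ⟨t, ht, hcov⟩ := htb (D / 2) (by linarith)
  have htne : t.Nonempty := by
    obtain ⟨z, hz, _⟩ := hcov a₀ ha₀
    exact ⟨z, hz⟩
  have hcard : (0 : ℝ) < t.card := by exact_mod_cast htne.card_pos
  refine ⟨∑ z ∈ t, (t.card : ℝ)⁻¹ • z, ?_, D - D / 2 * (t.card : ℝ)⁻¹, ?_, ?_⟩
  · refine (convex_convexHull ℝ F).sum_mem (fun _ _ => by positivity) ?_
      (fun z hz => subset_convexHull ℝ F (ht z hz))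
    rw [Finset.sum_const, nsmul_eq_mul, mul_inv_cancel₀ hcard.ne']
  · intro y hy
    obtain ⟨z0, hz0, hyz0⟩ := hcov y hy
    have e : (∑ z ∈ t, (t.card : ℝ)⁻¹ • z) - y = ∑ z ∈ t, (t.card : ℝ)⁻¹ • (z - y) := by
      simp only [smul_sub, Finset.sum_sub_distrib]
      congr 1
      rw [Finset.sum_const, ← Nat.cast_smul_eq_nsmul ℝ, smul_smul, mul_inv_cancel₀ hcard.ne', one_smul]
    rw [e]
    have h1 : q (∑ z ∈ t, (t.card : ℝ)⁻¹ • (z - y)) ≤ ∑ z ∈ t, (t.card : ℝ)⁻¹ * q (z - y) := by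
      have hgen : ∀ s : Finset W, q (∑ z ∈ s, (t.card : ℝ)⁻¹ • (z - y)) ≤
          ∑ z ∈ s, (t.card : ℝ)⁻¹ * q (z - y) := by
        intro s
        induction s using Finset.induction_on with
        | empty => simp
        | insert a s ha ih =>
          rw [Finset.sum_insert ha, Finset.sum_insert ha]
          refine (map_add_le_add q _ _).trans (add_le_add ?_ ih)
          rw [map_smul_eq_mul, Real.norm_eq_abs, abs_of_pos (inv_pos.2 hcard)]
      exact hgen t
    have h2 : ∑ z ∈ t, q (z - y) ≤ (t.card : ℝ) * D - D / 2 := by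
      rw [← Finset.add_sum_erase t _ hz0]
      have h3 : ∑ z ∈ t.erase z0, q (z - y) ≤ ∑ z ∈ t.erase z0, D :=
        Finset.sum_le_sum fun z hz => hDle z (ht z (Finset.mem_of_mem_erase hz)) y hy
      rw [Finset.sum_const, Finset.card_erase_of_mem hz0, nsmul_eq_mul,
        Nat.cast_sub (Finset.card_pos.2 htne), Nat.cast_one] at h3
      rw [map_sub_rev] at hyz0
      linarith
    rw [← Finset.mul_sum] at h1
    have h4 := mul_le_mul_of_nonneg_left h2 (inv_pos.2 hcard).le
    have h5 : (t.card : ℝ)⁻¹ * ((t.card : ℝ) * D - D / 2) = D - D / 2 * (t.card : ℝ)⁻¹ := by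
      field_simp
    linarith
  · have h1 : D - D / 2 * (t.card : ℝ)⁻¹ < D := by
      have : 0 < D / 2 * (t.card : ℝ)⁻¹ := by positivity
      linarith
    have hne : {s : ℝ | ∃ a ∈ F, ∃ b ∈ F, s = q (a - b)}.Nonempty := ⟨_, a₀, ha₀, b₀, hb₀, rfl⟩
    obtain ⟨s, ⟨a, ha, b, hb, rfl⟩, hs⟩ := exists_lt_of_lt_csSup hne h1
    exact ⟨a, ha, b, hb, hs⟩

end frag

end Pool.Agent.Helper446_WAP
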