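import Mathlib

/-! The kernel of a compact semitopological semigroup carrying a left invariant functional. -/

open Filter Topology

namespace Pool.Agent.Helper446_WAP

variable {M : Type*} [Semigroup M] [TopologicalSpace M] [CompactSpace M] [T2Space M] [Nonempty M]

/-- closed nonempty right ideals -/
def IsCRI (R : Set M) : Prop := IsClosed R ∧ R.Nonempty ∧ ∀ r ∈ R, ∀ t : M, r * t ∈ R

omit [Nonempty M] in
lemma inter_cri (hl : ∀ a : M, Continuous fun t => a * t)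
    (Λ : C(M, ℝ) → ℝ) (h01 : Λ 0 ≠ Λ 1)
    (hΛ : ∀ (σ : M) (f : C(M, ℝ)), Λ (f.comp ⟨fun t => σ * t, hl σ⟩) = Λ f)
    {R₁ R₂ : Set M} (h1 : IsCRI R₁) (h2 : IsCRI R₂) : IsCRI (R₁ ∩ R₂) := by
  refine ⟨h1.1.inter h2.1, ?_, fun r hr t => ⟨h1.2.2 r hr.1 t, h2.2.2 r hr.2 t⟩⟩
  by_contra hne
  have hdisj : Disjoint R₁ R₂ := by
    rw [Set.disjoint_iff_inter_eq_empty]
    exact Set.not_nonempty_iff_eq_empty.1 hne
  obtain ⟨f, hf0, hf1, _⟩ := exists_continuous_zero_one_of_isClosed h1.1 h2.1 hdisj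
  obtain ⟨r₁, hr₁⟩ := h1.2.1
  obtain ⟨r₂, hr₂⟩ := h2.2.1
  have e1 : f.comp ⟨fun t => r₁ * t, hl r₁⟩ = 0 := by
    ext t
    exact hf0 (h1.2.2 r₁ hr₁ t)
  have e2 : f.comp ⟨fun t => r₂ * t, hl r₂⟩ = 1 := by
    ext t
    exact hf1 (h2.2.2 r₂ hr₂ t)
  have h3 := hΛ r₁ f
  have h4 := hΛ r₂ f
  rw [e1] at h3
  rw [e2] at h4
  exact h01 (h3.trans h4.symm)

/-- There is an idempotent `e` and a compact group `G ∋ e` (inside the semigroup, with identity `e`)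
with `σ e ∈ G` for every `σ`. -/
theorem exists_kernel_group (hl : ∀ a : M, Continuous fun t => a * t)
    (hr : ∀ a : M, Continuous fun t => t * a)
    (Λ : C(M, ℝ) → ℝ) (h01 : Λ 0 ≠ Λ 1)
    (hΛ : ∀ (σ : M) (f : C(M, ℝ)), Λ (f.comp ⟨fun t => σ * t, hl σ⟩) = Λ f) :
    ∃ (e : M) (G : Set M), IsCompact G ∧ e ∈ G ∧ (∀ g ∈ G, e * g = g ∧ g * e = g) ∧
      (∀ g ∈ G, ∀ h ∈ G, g * h ∈ G) ∧ (∀ g ∈ G, ∃ h ∈ G, g * h = e ∧ h * g = e) ∧
      ∀ σ : M, σ * e ∈ G := by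
  -- the smallest closed right ideal
  let F : Set (Set M) := {R | IsCRI R}
  have huniv : (Set.univ : Set M) ∈ F := ⟨isClosed_univ, Set.univ_nonempty, fun _ _ _ => trivial⟩
  set R : Set M := ⋂₀ F with hRdef
  have hRF : IsCRI R := by
    refine ⟨isClosed_sInter fun A hA => hA.1, ?_, fun r hr' t => ?_⟩
    · have hFne : Nonempty F := ⟨⟨_, huniv⟩⟩
      refine IsCompact.nonempty_sInter_of_directed_nonempty_isCompact_isClosed ?_ ?_ ?_ ?_
      · intro A hA B hB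
        exact ⟨A ∩ B, inter_cri hl Λ h01 hΛ hA hB, Set.inter_subset_left, Set.inter_subset_right⟩
      · exact fun A hA => hA.2.1
      · exact fun A hA => hA.1.isCompact
      · exact fun A hA => hA.1
    · rw [hRdef, Set.mem_sInter] at hr' ⊢
      exact fun A hA => hA.2.2 r (hr' A hA) t
  have hRmin : ∀ A : Set M, IsCRI A → R ⊆ A := fun A hA => Set.sInter_subset_of_mem hA
  -- `σ R` is a closed right ideal
  have hsub : ∀ σ : M, ∀ A : Set M, IsCRI A → IsCRI ((fun t => σ * t) '' A) := by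
    intro σ A hA
    refine ⟨(hA.1.isCompact.image (hl σ)).isClosed, hA.2.1.image _, ?_⟩
    rintro _ ⟨a, ha, rfl⟩ t
    exact ⟨a * t, hA.2.2 a ha t, (mul_assoc _ _ _).symm⟩
  have hRσ : ∀ σ : M, R ⊆ (fun t => σ * t) '' R := fun σ => hRmin _ (hsub σ R hRF)
  -- `R` is a left ideal
  have hleft : ∀ σ : M, ∀ r ∈ R, σ * r ∈ R := by
    intro σ
    have h1 : IsCRI (R ∩ (fun t => σ * t) ⁻¹' R) := by
      refine ⟨hRF.1.inter (hRF.1.preimage (hl σ)), ?_, ?_⟩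
      · obtain ⟨r, hr'⟩ := hRF.2.1
        obtain ⟨r', hr'1, hr'2⟩ := hRσ σ hr'
        refine ⟨r', hr'1, ?_⟩
        show σ * r' ∈ R
        have : σ * r' = r := hr'2
        rwa [this]
      · rintro r ⟨h1, h2⟩ t
        refine ⟨hRF.2.2 r h1 t, ?_⟩
        show σ * (r * t) ∈ R
        rw [← mul_assoc]
        exact hRF.2.2 _ h2 t
    exact fun r hr' => (hRmin _ h1 hr').2
  -- idempotent
  obtain ⟨e, heR, hee⟩ := exists_idempotent_in_compact_subsemigroup hr R hRF.2.1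
    hRF.1.isCompact (fun x hx y _ => hRF.2.2 x hx y)
  have hleftid : ∀ r ∈ R, e * r = r := by
    intro r hr'
    obtain ⟨r', _, h⟩ := hRσ e hr'
    have h' : e * r' = r := h
    rw [← h', ← mul_assoc, hee]
  refine ⟨e, (fun t => t * e) '' R, hRF.1.isCompact.image (hr e), ⟨e, heR, hee⟩, ?_, ?_, ?_, ?_⟩
  · rintro _ ⟨r, hr', rfl⟩
    refine ⟨?_, ?_⟩
    · show e * (r * e) = r * e
      rw [← mul_assoc, hleftid r hr']
    · show r * e * e = r * e
      rw [mul_assoc, hee]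
  · rintro _ ⟨r, hr', rfl⟩ _ ⟨s, hs, rfl⟩
    refine ⟨r * e * s, hRF.2.2 _ (hRF.2.2 _ hr' e) s, ?_⟩
    show r * e * s * e = r * e * (s * e)
    rw [mul_assoc]
  · -- inverses
    have hinv : ∀ g ∈ (fun t => t * e) '' R, ∃ h ∈ (fun t => t * e) '' R, g * h = e := by
      rintro _ ⟨r, hr', rfl⟩
      obtain ⟨s, hs, h⟩ := hRσ (r * e) heR
      have h' : r * e * s = e := h
      refine ⟨s * e, ⟨s, hs, rfl⟩, ?_⟩
      show r * e * (s * e) = e
      rw [← mul_assoc, h', hee]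
    have hid : ∀ g ∈ (fun t => t * e) '' R, e * g = g ∧ g * e = g := by
      rintro _ ⟨r, hr', rfl⟩
      refine ⟨?_, ?_⟩
      · show e * (r * e) = r * e
        rw [← mul_assoc, hleftid r hr']
      · show r * e * e = r * e
        rw [mul_assoc, hee]
    intro g hg
    obtain ⟨h, hh, hgh⟩ := hinv g hg
    obtain ⟨k, hk, hhk⟩ := hinv h hh
    have hgk : g = k := by
      rw [← (hid g hg).2, ← hhk, ← mul_assoc, hgh, (hid k hk).1]
    refine ⟨h, hh, hgh, ?_⟩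
    rw [hgk]
    exact hhk
  · intro σ
    exact ⟨σ * e, hleft σ e heR, by
      show σ * e * e = σ * e
      rw [mul_assoc, hee]⟩

end Pool.Agent.Helper446_WAP
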