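import Pool.Agent.Helper446_WAP.Pull
import Pool.Agent.Helper446_WAP.Kernel
import Pool.Agent.Helper446_WAP.Frag

/-! The common fixed point. -/

open Filter Topology
open scoped BoundedContinuousFunction ComplexOrder

namespace Pool.Agent.Helper446_WAP

universe u v w

section env

variable {S : Type u} [Semigroup S] {K : Type v} [TopologicalSpace K]
  (T : S → K → K)

/-- the closure of the representation in `K^K` -/
def Env : Type _ := {g : K → K // g ∈ closure (Set.range T)}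

instance : TopologicalSpace (Env T) := inferInstanceAs (TopologicalSpace (Subtype _))

instance [T2Space K] : T2Space (Env T) := inferInstanceAs (T2Space (Subtype _))

instance [CompactSpace K] : CompactSpace (Env T) :=
  isCompact_iff_compactSpace.1 (isClosed_closure.isCompact)

variable {T}

lemma comp_mem_closure (hT : ∀ s t, T (s * t) = T s ∘ T t)
    (hc : ∀ g ∈ closure (Set.range T), Continuous g) {σ τ : K → K}
    (hσ : σ ∈ closure (Set.range T)) (hτ : τ ∈ closure (Set.range T)) :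
    σ ∘ τ ∈ closure (Set.range T) := by
  have h1 : ∀ s, T s ∘ τ ∈ closure (Set.range T) := by
    intro s
    have hcont : Continuous fun g : K → K => T s ∘ g :=
      continuous_pi fun x => (hc (T s) (subset_closure ⟨s, rfl⟩)).comp (continuous_apply x)
    refine map_mem_closure hcont hτ ?_
    rintro _ ⟨t, rfl⟩
    exact ⟨s * t, hT s t⟩
  have hcont : Continuous fun g : K → K => g ∘ τ :=
    continuous_pi fun x => continuous_apply (τ x)
  have h2 := map_mem_closure hcont hσ (t := closure (Set.range T)) (by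
    rintro _ ⟨s, rfl⟩
    exact h1 s)
  rwa [closure_closure] at h2

end env

section main

variable {𝕜 : Type*} [RCLike 𝕜] {S : Type u} [TopologicalSpace S] [Semigroup S]
  [SeparatelyContinuousMul S]

/-- the group in the enveloping semigroup, as maps -/
theorem exists_group {K : Type v} [TopologicalSpace K] [CompactSpace K] [T2Space K]
    (m : WAP 𝕜 S →ₗ[𝕜] 𝕜) (hm : IsLIM m) (T : S → K → K)
    (hT : ∀ s t, T (s * t) = T s ∘ T t) (hTc : ∀ x, Continuous fun s => T s x)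
    (hc : ∀ g ∈ closure (Set.range T), Continuous g) :
    ∃ (e : K → K) (G : Set (K → K)), IsCompact G ∧ G ⊆ closure (Set.range T) ∧ e ∈ G ∧
      (∀ g ∈ G, e ∘ g = g ∧ g ∘ e = g) ∧
      (∀ g ∈ G, ∀ h ∈ G, g ∘ h ∈ G) ∧ (∀ g ∈ G, ∃ h ∈ G, g ∘ h = e ∧ h ∘ g = e) ∧
      ∀ s : S, T s ∘ e ∈ G := by
  have hS : Nonempty S := by
    by_contra hS
    rw [not_nonempty_iff] at hS
    have h1 : (⟨1, one_mem_WAP 𝕜⟩ : WAP 𝕜 S) = 0 := by
      ext t
      exact hS.elim t
    have h2 := hm.map_one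
    rw [h1, map_zero] at h2
    exact zero_ne_one h2
  let _ : Semigroup (Env T) :=
    { mul := fun σ τ => ⟨σ.1 ∘ τ.1, comp_mem_closure hT hc σ.2 τ.2⟩
      mul_assoc := fun _ _ _ => rfl }
  have hmulv : ∀ σ τ : Env T, (σ * τ).1 = σ.1 ∘ τ.1 := fun _ _ => rfl
  have _ : Nonempty (Env T) := hS.map fun s => ⟨T s, subset_closure ⟨s, rfl⟩⟩
  have hl : ∀ a : Env T, Continuous fun t => a * t := by
    intro a
    refine Continuous.subtype_mk (continuous_pi fun x => ?_) _
    exact (hc a.1 a.2).comp ((continuous_apply x).comp continuous_subtype_val)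
  have hr : ∀ a : Env T, Continuous fun t => t * a := by
    intro a
    refine Continuous.subtype_mk (continuous_pi fun x => ?_) _
    exact (continuous_apply (a.1 x)).comp continuous_subtype_val
  let θ : S → Env T := fun s => ⟨T s, subset_closure ⟨s, rfl⟩⟩
  have hθ : Continuous θ := Continuous.subtype_mk (continuous_pi hTc) _
  have hmul : ∀ s t, θ (s * t) = θ s * θ t := fun s t => Subtype.ext (hT s t)
  have hdense : DenseRange θ := by
    intro σ
    have h1 : (Subtype.val '' Set.range θ : Set (K → K)) = Set.range T := by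
      rw [← Set.range_comp]
      rfl
    have h2 : σ.1 ∈ closure (Subtype.val '' Set.range θ : Set (K → K)) := by
      rw [h1]
      exact σ.2
    exact closure_subtype.2 h2
  obtain ⟨Λ, h01, hΛ⟩ := exists_functional 𝕜 hl hr θ hθ hmul hdense m hm
  obtain ⟨e, G, hG, heG, hid, hmulG, hinv, hσ⟩ := exists_kernel_group hl hr Λ h01 hΛ
  refine ⟨e.1, Subtype.val '' G, hG.image continuous_subtype_val, ?_, ⟨e, heG, rfl⟩, ?_, ?_, ?_, ?_⟩
  · rintro _ ⟨g, _, rfl⟩
    exact g.2
  · rintro _ ⟨g, hg, rfl⟩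
    exact ⟨congrArg Subtype.val (hid g hg).1, congrArg Subtype.val (hid g hg).2⟩
  · rintro _ ⟨g, hg, rfl⟩ _ ⟨h, hh, rfl⟩
    exact ⟨_, hmulG g hg h hh, rfl⟩
  · rintro _ ⟨g, hg, rfl⟩
    obtain ⟨h, hh, h1, h2⟩ := hinv g hg
    exact ⟨h.1, ⟨h, hh, rfl⟩, congrArg Subtype.val h1, congrArg Subtype.val h2⟩
  · intro s
    exact ⟨θ s * e, hσ (θ s), rfl⟩

/-- the fixed point theorem in a topological vector space `W` (playing the role of `E` with its weak topology)
and a separating family of seminorms -/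
theorem fixed_point {W : Type v} [AddCommGroup W] [Module ℝ W] [TopologicalSpace W] [T2Space W]
    [IsTopologicalAddGroup W] {ι : Type w} (q : ι → Seminorm ℝ W) (hHB : ∀ i, HB (q i))
    (hSep : ∀ i, Sepa (q i)) (hsep : ∀ x : W, x ≠ 0 → ∃ i, q i x ≠ 0)
    (m : WAP 𝕜 S →ₗ[𝕜] 𝕜) (hm : IsLIM m) (C : Set W) (hne : C.Nonempty) (hconv : Convex ℝ C)
    (hC : IsCompact C) (T : S → C → C) (hT : ∀ s t, T (s * t) = T s ∘ T t)
    (hTc : ∀ x, Continuous fun s => T s x)
    (hc : ∀ g ∈ closure (Set.range T), Continuous g)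
    (hnon : ∀ i s (x y : C), q i ((T s x : W) - (T s y : W)) ≤ q i ((x : W) - (y : W))) :
    ∃ x, ∀ s, T s x = x := by
  have hKc : CompactSpace C := isCompact_iff_compactSpace.1 hC
  obtain ⟨e, G, hG, hGcl, heG, hid, hmulG, hinv, hσ⟩ := exists_group m hm T hT hTc hc
  -- closed balls of the seminorms are closed
  have hlsc : ∀ i (r : ℝ), IsClosed {z : W | q i z ≤ r} := by
    intro i r
    rw [← isOpen_compl_iff, isOpen_iff_forall_mem_open]
    intro z hz
    obtain ⟨φ, hφc, _, hφq, hφz⟩ := hHB i z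
    refine ⟨{z' | r < φ z'}, ?_, isOpen_lt continuous_const hφc, ?_⟩
    · intro z' hz' hle
      have h1 : r < φ z' := hz'
      have h2 : q i z' ≤ r := hle
      have h3 := (le_abs_self _).trans (hφq z')
      linarith
    · show r < φ z
      rw [hφz]
      exact not_le.1 hz
  -- elements of the closure are nonexpansive
  have hnon' : ∀ i, ∀ g ∈ closure (Set.range T), ∀ x y : C,
      q i ((g x : W) - (g y : W)) ≤ q i ((x : W) - (y : W)) := by
    intro i g hg x y
    have hcont : Continuous fun g : C → C => ((g x : W) - (g y : W)) :=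
      (continuous_subtype_val.comp (continuous_apply x)).sub
        (continuous_subtype_val.comp (continuous_apply y))
    have hcl : IsClosed {g : C → C | q i ((g x : W) - (g y : W)) ≤ q i ((x : W) - (y : W))} :=
      (hlsc i _).preimage hcont
    refine closure_minimal ?_ hcl hg
    rintro _ ⟨s, rfl⟩
    exact hnon i s x y
  -- minimal invariant compact convex set
  let 𝒜 : Set (Set W) := {A | A ⊆ C ∧ IsClosed A ∧ A.Nonempty ∧ Convex ℝ A ∧
    ∀ s, ∀ x : C, (x : W) ∈ A → (T s x : W) ∈ A}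
  have hC𝒜 : C ∈ 𝒜 := ⟨subset_rfl, hC.isClosed, hne, hconv, fun s x _ => (T s x).2⟩
  obtain ⟨A, _, hAmin⟩ := zorn_superset_nonempty 𝒜 (by
    intro c hc𝒜 hchain hcne
    obtain ⟨A₀, hA₀⟩ := hcne
    refine ⟨⋂₀ c, ⟨?_, ?_, ?_, ?_, ?_⟩, fun s hs => Set.sInter_subset_of_mem hs⟩
    · exact (Set.sInter_subset_of_mem hA₀).trans (hc𝒜 hA₀).1
    · exact isClosed_sInter fun A hA => (hc𝒜 hA).2.1
    · have : Nonempty c := ⟨⟨A₀, hA₀⟩⟩
      refine IsCompact.nonempty_sInter_of_directed_nonempty_isCompact_isClosed ?_ ?_ ?_ ?_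
      · exact IsChain.directedOn hchain.symm
      · exact fun A hA => (hc𝒜 hA).2.2.1
      · exact fun A hA => hC.of_isClosed_subset (hc𝒜 hA).2.1 (hc𝒜 hA).1
      · exact fun A hA => (hc𝒜 hA).2.1
    · exact convex_sInter fun A hA => (hc𝒜 hA).2.2.2.1
    · intro s x hx
      rw [Set.mem_sInter] at hx ⊢
      exact fun A hA => (hc𝒜 hA).2.2.2.2 s x (hx A hA)) C hC𝒜
  obtain ⟨hAC, hAcl, ⟨a, haA⟩, hAconv, hAinv⟩ := hAmin.prop
  let x₀ : C := ⟨a, hAC haA⟩
  -- the closure maps `A` to `A`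
  have hAinv' : ∀ g ∈ closure (Set.range T), ∀ x : C, (x : W) ∈ A → (g x : W) ∈ A := by
    intro g hg x hx
    have hcl : IsClosed {g : C → C | (g x : W) ∈ A} :=
      hAcl.preimage (continuous_subtype_val.comp (continuous_apply x))
    refine closure_minimal ?_ hcl hg
    rintro _ ⟨s, rfl⟩
    exact hAinv s x hx
  -- the orbit
  let ev : (C → C) → W := fun g => (g x₀ : W)
  have hev : Continuous ev := continuous_subtype_val.comp (continuous_apply x₀)
  let F : Set W := ev '' G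
  have hF : IsCompact F := hG.image hev
  have hFne : F.Nonempty := ⟨_, e, heG, rfl⟩
  have hFA : F ⊆ A := by
    rintro _ ⟨g, hg, rfl⟩
    exact hAinv' g (hGcl hg) x₀ haA
  have hFC : F ⊆ C := hFA.trans hAC
  have hcomp : ∀ (g h : C → C) (x : C), (g ∘ h) x = g (h x) := fun _ _ _ => rfl
  -- homogeneity
  have hom : ∀ y ∈ F, ∀ z ∈ F, ∃ h : W → W, Set.MapsTo h F F ∧ ContinuousOn h F ∧ h y = z ∧
      ∀ i, ∀ w ∈ F, ∀ w' ∈ F, q i (w - w') ≤ q i (h w - h w') := by
    rintro _ ⟨g₁, hg₁, rfl⟩ _ ⟨g₂, hg₂, rfl⟩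
    obtain ⟨h₁, hh₁, hgh₁, hhg₁⟩ := hinv g₁ hg₁
    obtain ⟨h₂, hh₂, hgh₂, hhg₂⟩ := hinv g₂ hg₂
    have hk := hmulG g₂ hg₂ h₁ hh₁
    have hk' := hmulG g₁ hg₁ h₂ hh₂
    classical
    let H : W → W := fun w => if hw : w ∈ C then ((g₂ ∘ h₁) ⟨w, hw⟩ : W) else w
    have hH : ∀ x : C, H x = ((g₂ ∘ h₁) x : W) := by
      intro x
      simp only [H, dif_pos x.2]
    have hHe : ∀ g : C → C, H (ev g) = ev ((g₂ ∘ h₁) ∘ g) := fun g => hH (g x₀)
    refine ⟨H, ?_, ?_, ?_, ?_⟩
    · rintro _ ⟨g, hg, rfl⟩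
      rw [hHe]
      exact ⟨_, hmulG _ hk g hg, rfl⟩
    · refine ContinuousOn.mono ?_ hFC
      rw [continuousOn_iff_continuous_domRestrict]
      have : C.domRestrict H = fun x => ((g₂ ∘ h₁) x : W) := funext hH
      rw [this]
      exact continuous_subtype_val.comp (hc _ (hGcl hk))
    · rw [hHe]
      have : (g₂ ∘ h₁) ∘ g₁ = g₂ := by
        rw [Function.comp_assoc, hhg₁]
        exact (hid g₂ hg₂).2
      rw [this]
    · rintro i _ ⟨g, hg, rfl⟩ _ ⟨g', hg', rfl⟩
      rw [hHe, hHe]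
      have hback : ∀ f ∈ G, (g₁ ∘ h₂) ∘ ((g₂ ∘ h₁) ∘ f) = f := by
        intro f hf
        have e1 : (g₁ ∘ h₂) ∘ ((g₂ ∘ h₁) ∘ f) = (g₁ ∘ ((h₂ ∘ g₂) ∘ h₁)) ∘ f := rfl
        rw [e1, hhg₂, (hid h₁ hh₁).1, hgh₁]
        exact (hid f hf).1
      have h1 := hnon' i (g₁ ∘ h₂) (hGcl hk') (((g₂ ∘ h₁) ∘ g) x₀) (((g₂ ∘ h₁) ∘ g') x₀)
      rw [← hcomp (g₁ ∘ h₂) ((g₂ ∘ h₁) ∘ g), ← hcomp (g₁ ∘ h₂) ((g₂ ∘ h₁) ∘ g'), hback g hg,
        hback g' hg'] at h1
      exact h1
  -- `T_s F = F`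
  have hsurj : ∀ s, ∀ y ∈ F, ∃ x : C, (x : W) ∈ F ∧ (T s x : W) = y := by
    rintro s _ ⟨g, hg, rfl⟩
    obtain ⟨h, hh, h1, _⟩ := hinv _ (hσ s)
    have hTh : T s ∘ h = e := by
      rw [← (hid h hh).1, ← Function.comp_assoc]
      exact h1
    refine ⟨(h ∘ g) x₀, ⟨_, hmulG h hh g hg, rfl⟩, ?_⟩
    have e1 : (T s) ((h ∘ g) x₀) = ((T s ∘ h) ∘ g) x₀ := rfl
    rw [e1, hTh, (hid g hg).1]
  have hmaps : ∀ s (x : C), (x : W) ∈ F → (T s x : W) ∈ F := by
    rintro s x ⟨g, hg, hx⟩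
    have hx' : g x₀ = x := Subtype.ext hx
    refine ⟨(T s ∘ e) ∘ g, hmulG _ (hσ s) g hg, ?_⟩
    have e1 : (T s ∘ e) ∘ g = T s ∘ (e ∘ g) := rfl
    show (((T s ∘ e) ∘ g) x₀ : W) = _
    rw [e1, (hid g hg).1, hcomp, hx']
  -- the orbit is a point
  have hpoint : ∀ a ∈ F, ∀ b ∈ F, a = b := by
    intro a ha b hb
    by_contra hab
    obtain ⟨i, hi⟩ := hsep (a - b) (sub_ne_zero.2 hab)
    have hpos : 0 < q i (a - b) := lt_of_le_of_ne (apply_nonneg _ _) (Ne.symm hi)
    have htb : ∀ ε : ℝ, 0 < ε → ∃ t : Finset W, (∀ z ∈ t, z ∈ F) ∧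
        ∀ y ∈ F, ∃ z ∈ t, q i (y - z) ≤ ε := fun ε hε =>
      totally_bounded (hHB i) (hSep i) hF hFne (fun y hy z hz => by
        obtain ⟨h, h1, h2, h3, h4⟩ := hom y hy z hz
        exact ⟨h, h1, h2, h3, h4 i⟩) hε
    obtain ⟨u, hu, r, hur, a', ha', b', hb', hab'⟩ := exists_center htb ha hb hpos
    have huA : u ∈ A := (convexHull_min hFA hAconv) hu
    have hA₁ : A ∩ {x | ∀ y ∈ F, q i (x - y) ≤ r} ∈ 𝒜 := by
      refine ⟨Set.inter_subset_left.trans hAC, ?_, ⟨u, huA, hur⟩, ?_, ?_⟩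
      · refine hAcl.inter ?_
        have : {x | ∀ y ∈ F, q i (x - y) ≤ r} = ⋂ y ∈ F, (fun x => x - y) ⁻¹' {z | q i z ≤ r} := by
          ext x
          simp
        rw [this]
        exact isClosed_biInter fun y _ => (hlsc i r).preimage (continuous_id.sub continuous_const)
      · refine hAconv.inter ?_
        intro x hx y hy s t hs ht hst z hz
        have e1 : s • x + t • y - z = s • (x - z) + t • (y - z) := by
          have : z = s • z + t • z := by rw [← add_smul, hst, one_smul]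
          nth_rewrite 1 [this]
          rw [smul_sub, smul_sub]
          abel
        rw [e1]
        refine (map_add_le_add (q i) _ _).trans ?_
        rw [map_smul_eq_mul, map_smul_eq_mul, Real.norm_of_nonneg hs, Real.norm_of_nonneg ht]
        have h1 := mul_le_mul_of_nonneg_left (hx z hz) hs
        have h2 := mul_le_mul_of_nonneg_left (hy z hz) ht
        have h3 : s * r + t * r = r := by rw [← add_mul, hst, one_mul]
        linarith
      · rintro s x ⟨hx1, hx2⟩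
        refine ⟨hAinv s x hx1, fun y hy => ?_⟩
        obtain ⟨y', hy'F, hy'⟩ := hsurj s y hy
        rw [← hy']
        exact (hnon i s x y').trans (hx2 _ hy'F)
    have hAA := hAmin.le_of_le hA₁ Set.inter_subset_left
    have h1 := (hAA (hFA ha')).2 b' hb'
    linarith
  refine ⟨e x₀, fun s => ?_⟩
  have h1 : (e x₀ : W) ∈ F := ⟨e, heG, rfl⟩
  exact Subtype.ext (hpoint _ (hmaps s _ h1) _ h1)

end main

end Pool.Agent.Helper446_WAP
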