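import Mathlib

/-! Dominated convergence for functionals on `C(Y)` and Grothendieck's theorem on separately
continuous functions. -/

open Filter Topology MeasureTheory

namespace Pool.Agent.Helper446_WAP

section dct

variable {Y : Type*} [TopologicalSpace Y] [CompactSpace Y] [T2Space Y]

/-- dominated convergence for positive functionals -/
lemma pos_dct (P : C(Y, ℝ) →ₗ[ℝ] ℝ) (hP : ∀ f : C(Y, ℝ), 0 ≤ f → 0 ≤ P f) (g : ℕ → C(Y, ℝ)) (M : ℝ)
    (hM : ∀ n y, |g n y| ≤ M) (h0 : ∀ y, Tendsto (fun n => g n y) atTop (𝓝 0)) :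
    Tendsto (fun n => P (g n)) atTop (𝓝 0) := by
  let _ : MeasurableSpace Y := borel Y
  have _ : BorelSpace Y := ⟨rfl⟩
  let toC : CompactlySupportedContinuousMap Y ℝ → C(Y, ℝ) := fun f => ⟨f, f.continuous⟩
  let Λ : CompactlySupportedContinuousMap Y ℝ →ₚ[ℝ] ℝ :=
    { toFun := fun f => P (toC f)
      map_add' := fun f f' => by
        rw [← P.map_add]
        rfl
      map_smul' := fun c f => by
        rw [← P.map_smul]
        rfl
      monotone' := fun f f' hff' => by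
        have h1 : 0 ≤ toC f' - toC f := by
          intro y
          have : f y ≤ f' y := hff' y
          show (0 : ℝ) ≤ f' y - f y
          linarith
        have h2 := hP _ h1
        rw [map_sub] at h2
        show P (toC f) ≤ P (toC f')
        linarith }
  have hint : ∀ n, P (g n) = ∫ y, g n y ∂(RealRMK.rieszMeasure Λ) := by
    intro n
    have h := RealRMK.integral_rieszMeasure Λ
      ⟨g n, HasCompactSupport.of_compactSpace _⟩
    exact h.symm
  simp_rw [hint]
  have h1 := tendsto_integral_of_dominated_convergence (μ := RealRMK.rieszMeasure Λ)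
    (F := fun n y => g n y) (f := fun _ => (0 : ℝ)) (fun _ => M)
    (fun n => (g n).continuous.aestronglyMeasurable) (integrable_const M)
    (fun n => Eventually.of_forall fun y => by rw [Real.norm_eq_abs]; exact hM n y)
    (Eventually.of_forall fun y => h0 y)
  simpa using h1

/-- dominated convergence for bounded functionals on `C(Y)` -/
lemma dct (L : C(Y, ℝ) →L[ℝ] ℝ) (g : ℕ → C(Y, ℝ)) (M : ℝ)
    (hM : ∀ n y, |g n y| ≤ M) (h0 : ∀ y, Tendsto (fun n => g n y) atTop (𝓝 0)) :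
    Tendsto (fun n => L (g n)) atTop (𝓝 0) := by
  by_contra hcon
  rw [Metric.tendsto_atTop] at hcon
  push Not at hcon
  obtain ⟨ε, hε, hN⟩ := hcon
  have hfr : ∃ᶠ n in atTop, ε ≤ |L (g n)| := by
    rw [frequently_atTop]
    intro N
    obtain ⟨n, hn, h⟩ := hN N
    refine ⟨n, hn, ?_⟩
    rwa [Real.dist_eq, sub_zero] at h
  -- the convex set
  let A : Set C(Y, ℝ) := {u | ∃ a : C(Y, ℝ), (∀ y, |a y| ≤ u y) ∧ ε ≤ L a}
  have hAconv : Convex ℝ A := by
    intro u hu v hv s t hs ht hst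
    obtain ⟨a, ha, hLa⟩ := hu
    obtain ⟨b, hb, hLb⟩ := hv
    refine ⟨s • a + t • b, fun y => ?_, ?_⟩
    · have h1 : |s * a y + t * b y| ≤ s * u y + t * v y := by
        refine (abs_add_le _ _).trans (add_le_add ?_ ?_)
        · rw [abs_mul, abs_of_nonneg hs]
          exact mul_le_mul_of_nonneg_left (ha y) hs
        · rw [abs_mul, abs_of_nonneg ht]
          exact mul_le_mul_of_nonneg_left (hb y) ht
      exact h1
    · rw [map_add, map_smul, map_smul, smul_eq_mul, smul_eq_mul]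
      have h1 := mul_le_mul_of_nonneg_left hLa hs
      have h2 := mul_le_mul_of_nonneg_left hLb ht
      have h3 : s * ε + t * ε = ε := by rw [← add_mul, hst, one_mul]
      linarith
  have hmem : ∀ n, ε ≤ |L (g n)| → |g n| ∈ A := by
    intro n hn
    rcases le_total 0 (L (g n)) with h | h
    · refine ⟨g n, fun y => le_rfl, ?_⟩
      rwa [abs_of_nonneg h] at hn
    · refine ⟨- g n, fun y => ?_, ?_⟩
      · show |-(g n y)| ≤ |g n y|
        rw [abs_neg]
      · rw [map_neg]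
        rwa [abs_of_nonpos h] at hn
  have hup : ∀ u ∈ A, ∀ v : C(Y, ℝ), 0 ≤ v → u + v ∈ A := by
    rintro u ⟨a, ha, hLa⟩ v hv
    refine ⟨a, fun y => ?_, hLa⟩
    have h1 : (0 : ℝ) ≤ v y := hv y
    show |a y| ≤ u y + v y
    linarith [ha y]
  set δ : ℝ := ε / (‖L‖ + 1) with hδ
  have hL1 : 0 < ‖L‖ + 1 := by positivity
  have hδ0 : 0 < δ := div_pos hε hL1
  have hdisj : Disjoint (Metric.ball (0 : C(Y, ℝ)) δ) A := by
    rw [Set.disjoint_left]
    rintro u hu ⟨a, ha, hLa⟩
    rw [mem_ball_zero_iff] at hu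
    have h1 : ‖a‖ ≤ ‖u‖ := by
      rw [ContinuousMap.norm_le a (norm_nonneg u)]
      intro y
      rw [Real.norm_eq_abs]
      exact (ha y).trans ((le_abs_self _).trans (u.norm_coe_le_norm y))
    have h2 : L a ≤ ‖L‖ * ‖a‖ := (le_abs_self _).trans (L.le_opNorm a)
    have h3 : ‖L‖ * ‖a‖ ≤ ‖L‖ * δ :=
      mul_le_mul_of_nonneg_left (h1.trans hu.le) (norm_nonneg L)
    have h4 : (‖L‖ + 1) * δ = ε := by
      rw [hδ]
      field_simp
    nlinarith
  obtain ⟨P, c, hPball, hPA⟩ := geometric_hahn_banach_open (convex_ball _ _) Metric.isOpen_ball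
    hAconv hdisj
  have hc : 0 < c := by
    have := hPball 0 (Metric.mem_ball_self hδ0)
    rwa [map_zero] at this
  obtain ⟨n0, hn0⟩ := hfr.exists
  have hPpos : ∀ f : C(Y, ℝ), 0 ≤ f → 0 ≤ P f := by
    intro f hf
    by_contra hneg
    push Not at hneg
    -- u + t f
    have h1 : ∀ t : ℝ, 0 ≤ t → c ≤ P |g n0| + t * P f := by
      intro t ht
      have h2 := hPA _ (hup _ (hmem n0 hn0) (t • f) (by
        intro y
        have : (0 : ℝ) ≤ f y := hf y
        show (0 : ℝ) ≤ t * f y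
        positivity))
      rwa [map_add, map_smul, smul_eq_mul] at h2
    obtain ⟨q, hq⟩ : ∃ q : ℝ, q = P |g n0| := ⟨_, rfl⟩
    rw [← hq] at h1
    have h2 := h1 (|q| / (-(P f))) (by
      apply div_nonneg (abs_nonneg _)
      linarith)
    have h3 : |q| / (-(P f)) * P f = -|q| := by
      have : P f ≠ 0 := hneg.ne
      field_simp
    rw [h3] at h2
    have h4 := le_abs_self q
    linarith
  have hlim := pos_dct (P : C(Y, ℝ) →ₗ[ℝ] ℝ) hPpos (fun n => |g n|) M (fun n y => by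
      show |(|g n y|)| ≤ M
      rw [abs_abs]
      exact hM n y) (fun y => by
      have h1 := (h0 y).abs
      rw [abs_zero] at h1
      exact h1)
  have hev : ∀ᶠ n in atTop, P |g n| < c := (tendsto_order.1 hlim).2 c hc
  obtain ⟨n, hn1, hn2⟩ := (hfr.and_eventually hev).exists
  exact absurd (hPA _ (hmem n hn1)) (not_le.2 hn2)

end dct

section groth

variable {X Y : Type*} [TopologicalSpace X] [CompactSpace X] [TopologicalSpace Y] [CompactSpace Y]

open Classical in
/-- selection of a sequence converging pointwise to zero -/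
lemma exists_seq (Ψ : X → C(Y, ℝ)) (hΨ : ∀ y, Continuous fun x => Ψ x y) (x0 : X)
    (h00 : ∀ y, Ψ x0 y = 0) (Z : Set X) (hZ : ∃ᶠ x in 𝓝 x0, x ∈ Z) :
    ∃ x : ℕ → X, (∀ n, x n ∈ Z) ∧ ∀ y, Tendsto (fun n => Ψ (x n) y) atTop (𝓝 0) := by
  have hpick : ∀ (D : Finset Y) (n : ℕ), ∃ x ∈ Z, ∀ d ∈ D, |Ψ x d| < 1 / ((n : ℝ) + 1) := by
    intro D n
    have h1 : ∀ᶠ x in 𝓝 x0, ∀ d ∈ D, |Ψ x d| < 1 / ((n : ℝ) + 1) := by
      rw [Filter.eventually_all_finset]
      intro d _
      have h2 : ContinuousAt (fun x => |Ψ x d|) x0 := (hΨ d).abs.continuousAt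
      have h3 : |Ψ x0 d| < 1 / ((n : ℝ) + 1) := by
        rw [h00 d, abs_zero]
        positivity
      exact h2.eventually_lt continuousAt_const h3
    obtain ⟨x, hx1, hx2⟩ := (hZ.and_eventually h1).exists
    exact ⟨x, hx1, hx2⟩
  have hnet : ∀ (H : Finset X) (n : ℕ), ∃ D : Finset Y, ∀ y, ∃ d ∈ D, ∀ x ∈ H,
      |Ψ x y - Ψ x d| < 1 / ((n : ℝ) + 1) := by
    intro H n
    have h1 : ∀ y : Y, {z : Y | ∀ x ∈ H, |Ψ x z - Ψ x y| < 1 / ((n : ℝ) + 1)} ∈ 𝓝 y := by
      intro y
      show ∀ᶠ z in 𝓝 y, ∀ x ∈ H, |Ψ x z - Ψ x y| < 1 / ((n : ℝ) + 1)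
      rw [Filter.eventually_all_finset]
      intro x _
      have h2 : ContinuousAt (fun z => |Ψ x z - Ψ x y|) y :=
        ((Ψ x).continuous.sub continuous_const).abs.continuousAt
      have h3 : |Ψ x y - Ψ x y| < 1 / ((n : ℝ) + 1) := by
        rw [sub_self, abs_zero]
        positivity
      exact h2.eventually_lt continuousAt_const h3
    obtain ⟨D, hD⟩ := CompactSpace.elim_nhds_subcover _ h1
    refine ⟨D, fun y => ?_⟩
    have hy : y ∈ ⋃ d ∈ D, {z : Y | ∀ x ∈ H, |Ψ x z - Ψ x d| < 1 / ((n : ℝ) + 1)} := by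
      rw [hD]; trivial
    simp only [Set.mem_iUnion] at hy
    obtain ⟨d, hd, hy⟩ := hy
    exact ⟨d, hd, hy⟩
  choose pick hpZ hpd using hpick
  choose net hnet using hnet
  let st : ℕ → Finset Y × Finset X := fun n => Nat.rec (∅, ∅)
    (fun n s => (s.1 ∪ net (insert (pick s.1 n) s.2) n, insert (pick s.1 n) s.2)) n
  have hst : ∀ n, st (n + 1) = ((st n).1 ∪ net (insert (pick (st n).1 n) (st n).2) n,
      insert (pick (st n).1 n) (st n).2) := fun n => rfl
  let x : ℕ → X := fun n => pick (st n).1 n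
  have hD1 : ∀ n, (st n).1 ⊆ (st (n + 1)).1 := by
    intro n
    rw [hst]
    exact Finset.subset_union_left
  have hH1 : ∀ n, (st n).2 ⊆ (st (n + 1)).2 := by
    intro n
    rw [hst]
    exact Finset.subset_insert _ _
  have hDm : Monotone fun n => (st n).1 := monotone_nat_of_le_succ hD1
  have hHm : Monotone fun n => (st n).2 := monotone_nat_of_le_succ hH1
  have hxH : ∀ k n, k ≤ n → x k ∈ (st (n + 1)).2 := by
    intro k n hkn
    refine hHm (Nat.succ_le_succ hkn) ?_
    show x k ∈ (st (k + 1)).2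
    rw [hst]
    exact Finset.mem_insert_self _ _
  have hxd : ∀ m n, m ≤ n → ∀ d ∈ (st m).1, |Ψ (x n) d| < 1 / ((n : ℝ) + 1) := by
    intro m n hmn d hd
    exact hpd (st n).1 n d (hDm hmn hd)
  have hyd : ∀ y n, ∃ d ∈ (st (n + 1)).1, ∀ k ≤ n, |Ψ (x k) y - Ψ (x k) d| < 1 / ((n : ℝ) + 1) := by
    intro y n
    obtain ⟨d, hd, h⟩ := hnet (insert (pick (st n).1 n) (st n).2) n y
    refine ⟨d, ?_, fun k hk => ?_⟩
    · rw [hst]
      exact Finset.mem_union_right _ hd
    · have h1 := hxH k n hk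
      rw [hst] at h1
      exact h _ h1
  refine ⟨x, fun n => hpZ _ _, fun y => ?_⟩
  choose d hd1 hd2 using hyd y
  rw [tendsto_iff_ultrafilter]
  intro U hU
  -- limits along `U`
  have hlimX : ∃ z : X, Tendsto x (U : Filter ℕ) (𝓝 z) := by
    obtain ⟨z, _, hz⟩ := isCompact_univ.ultrafilter_le_nhds (U.map x) (by simp)
    exact ⟨z, hz⟩
  have hlimY : ∃ y' : Y, Tendsto d (U : Filter ℕ) (𝓝 y') := by
    obtain ⟨z, _, hz⟩ := isCompact_univ.ultrafilter_le_nhds (U.map d) (by simp)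
    exact ⟨z, hz⟩
  obtain ⟨z, hz⟩ := hlimX
  obtain ⟨y', hy'⟩ := hlimY
  have hone : Tendsto (fun n : ℕ => 1 / ((n : ℝ) + 1)) (U : Filter ℕ) (𝓝 0) :=
    (tendsto_one_div_add_atTop_nhds_zero_nat (𝕜 := ℝ)).mono_left hU
  -- `Ψ z d = 0` on all the chosen points
  have hzd : ∀ m, ∀ e ∈ (st m).1, Ψ z e = 0 := by
    intro m e he
    have h1 : Tendsto (fun n => Ψ (x n) e) (U : Filter ℕ) (𝓝 (Ψ z e)) :=
      ((hΨ e).tendsto z).comp hz
    have h2 : Tendsto (fun n => Ψ (x n) e) (U : Filter ℕ) (𝓝 0) := by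
      refine squeeze_zero_norm' ?_ hone
      filter_upwards [hU (eventually_ge_atTop m)] with n hn
      rw [Real.norm_eq_abs]
      exact (hxd m n hn e he).le
    exact tendsto_nhds_unique h1 h2
  have hzy : Ψ z y' = 0 := by
    have h1 : Tendsto (fun n => Ψ z (d n)) (U : Filter ℕ) (𝓝 (Ψ z y')) :=
      ((Ψ z).continuous.tendsto y').comp hy'
    have h2 : (fun n => Ψ z (d n)) = fun _ => (0 : ℝ) := by
      funext n
      exact hzd (n + 1) (d n) (hd1 n)
    rw [h2] at h1
    exact tendsto_nhds_unique h1 tendsto_const_nhds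
  have hky : ∀ k, Ψ (x k) y' = Ψ (x k) y := by
    intro k
    have h1 : Tendsto (fun n => Ψ (x k) (d n)) (U : Filter ℕ) (𝓝 (Ψ (x k) y')) :=
      ((Ψ (x k)).continuous.tendsto y').comp hy'
    have h2 : Tendsto (fun n => Ψ (x k) y - Ψ (x k) (d n)) (U : Filter ℕ) (𝓝 0) := by
      refine squeeze_zero_norm' ?_ hone
      filter_upwards [hU (eventually_ge_atTop k)] with n hn
      rw [Real.norm_eq_abs]
      exact (hd2 n k hn).le
    have h3 := tendsto_nhds_unique h2 (tendsto_const_nhds.sub h1)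
    linarith
  have h1 : Tendsto (fun n => Ψ (x n) y') (U : Filter ℕ) (𝓝 (Ψ z y')) :=
    ((hΨ y').tendsto z).comp hz
  rw [hzy] at h1
  refine h1.congr fun n => ?_
  exact hky n

/-- **Grothendieck**: a bounded separately continuous function on a product of compact spaces
gives a weakly continuous map. -/
theorem continuous_functional [T2Space Y] (Φ : X → C(Y, ℝ)) (hΦ : ∀ y, Continuous fun x => Φ x y)
    (M : ℝ) (hM : ∀ x y, |Φ x y| ≤ M) (L : C(Y, ℝ) →L[ℝ] ℝ) : Continuous fun x => L (Φ x) := by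
  rw [continuous_iff_continuousAt]
  intro x0
  by_contra hcon
  have hfr : ∃ ε > 0, ∃ᶠ x in 𝓝 x0, ε ≤ |L (Φ x - Φ x0)| := by
    by_contra h
    push Not at h
    apply hcon
    unfold ContinuousAt
    rw [Metric.tendsto_nhds]
    intro ε hε
    have h1 := h ε hε
    filter_upwards [h1] with x hx
    rw [Real.dist_eq, ← map_sub]
    exact hx
  obtain ⟨ε, hε, hfr⟩ := hfr
  obtain ⟨x, hx1, hx2⟩ := exists_seq (fun x => Φ x - Φ x0) (fun y => (hΦ y).sub continuous_const) x0
    (fun y => sub_self _) {x | ε ≤ |L (Φ x - Φ x0)|} hfr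
  have h1 := dct L (fun n => Φ (x n) - Φ x0) (M + M) (fun n y => by
    show |Φ (x n) y - Φ x0 y| ≤ M + M
    exact (abs_sub _ _).trans (add_le_add (hM _ _) (hM _ _))) hx2
  have h2 : ∀ᶠ n in atTop, |L (Φ (x n) - Φ x0)| < ε := by
    have h3 := h1.abs
    rw [abs_zero] at h3
    exact (tendsto_order.1 h3).2 ε hε
  obtain ⟨n, hn⟩ := h2.exists
  exact absurd (hx1 n) (not_le.2 hn)

end groth

end Pool.Agent.Helper446_WAP
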