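import Pool.Agent.Helper446_WAP.Defs
import Pool.Agent.Helper446_WAP.Groth

/-! Continuous functions on a compact semitopological semigroup pull back to weakly almost periodic
functions, and a left invariant mean gives a left invariant functional. -/

open Filter Topology
open scoped BoundedContinuousFunction ComplexOrder

namespace Pool.Agent.Helper446_WAP

universe u v

noncomputable section

variable (𝕜 : Type*) [RCLike 𝕜] {S : Type u} [TopologicalSpace S]
  {M : Type v} [TopologicalSpace M] [CompactSpace M]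

/-- pull back of a continuous function on `M` -/
def pull (θ : S → M) (hθ : Continuous θ) (h : C(M, ℝ)) : S →ᵇ 𝕜 :=
  BoundedContinuousFunction.ofNormedAddCommGroup (fun t => ((h (θ t) : ℝ) : 𝕜))
    (RCLike.continuous_ofReal.comp (h.continuous.comp hθ)) ‖h‖ (fun t => by
      rw [RCLike.norm_ofReal]
      exact h.norm_coe_le_norm (θ t))

@[simp] lemma pull_apply (θ : S → M) (hθ : Continuous θ) (h : C(M, ℝ)) (t : S) :
    pull 𝕜 θ hθ h t = ((h (θ t) : ℝ) : 𝕜) := rfl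

/-- the pull back as a bounded real linear map -/
def pullL (θ : S → M) (hθ : Continuous θ) : C(M, ℝ) →L[ℝ] (S →ᵇ 𝕜) :=
  LinearMap.mkContinuous
    { toFun := pull 𝕜 θ hθ
      map_add' := fun h h' => by
        ext t
        simp
      map_smul' := fun c h => by
        ext t
        simp [RCLike.real_smul_eq_coe_mul] } 1 (fun h => by
      rw [one_mul]
      refine (BoundedContinuousFunction.norm_le (norm_nonneg h)).2 fun t => ?_
      show ‖((h (θ t) : ℝ) : 𝕜)‖ ≤ ‖h‖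
      rw [RCLike.norm_ofReal]
      exact h.norm_coe_le_norm (θ t))

@[simp] lemma pullL_apply (θ : S → M) (hθ : Continuous θ) (h : C(M, ℝ)) :
    pullL 𝕜 θ hθ h = pull 𝕜 θ hθ h := rfl

variable [Semigroup S] [SeparatelyContinuousMul S] [Semigroup M]

/-- left translate on `M` -/
def tr (hl : ∀ a : M, Continuous fun t => a * t) (h : C(M, ℝ)) (σ : M) : C(M, ℝ) :=
  h.comp ⟨fun t => σ * t, hl σ⟩

omit [CompactSpace M] in
lemma tr_apply (hl : ∀ a : M, Continuous fun t => a * t) (h : C(M, ℝ)) (σ t : M) :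
    tr hl h σ t = h (σ * t) := rfl

lemma translate_pull (hl : ∀ a : M, Continuous fun t => a * t) (θ : S → M) (hθ : Continuous θ)
    (hmul : ∀ s t, θ (s * t) = θ s * θ t) (h : C(M, ℝ)) (s : S) :
    leftTranslate s (pull 𝕜 θ hθ h) = pull 𝕜 θ hθ (tr hl h (θ s)) := by
  ext t
  rw [leftTranslate_apply, pull_apply, pull_apply, tr_apply, hmul]

variable [T2Space M]

lemma continuous_tr_functional (hl : ∀ a : M, Continuous fun t => a * t)
    (hr : ∀ a : M, Continuous fun t => t * a) (h : C(M, ℝ)) (L : C(M, ℝ) →L[ℝ] ℝ) :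
    Continuous fun σ => L (tr hl h σ) :=
  continuous_functional (tr hl h) (fun t => h.continuous.comp (hr t)) ‖h‖ (fun σ t => by
    have := h.norm_coe_le_norm (σ * t)
    rwa [Real.norm_eq_abs] at this) L

theorem pull_mem_WAP (hl : ∀ a : M, Continuous fun t => a * t)
    (hr : ∀ a : M, Continuous fun t => t * a) (θ : S → M) (hθ : Continuous θ)
    (hmul : ∀ s t, θ (s * t) = θ s * θ t) (h : C(M, ℝ)) : pull 𝕜 θ hθ h ∈ WAP 𝕜 S := by
  have hcont : Continuous fun σ : M => toWeakSpace 𝕜 (S →ᵇ 𝕜) (pull 𝕜 θ hθ (tr hl h σ)) := by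
    refine WeakBilin.continuous_of_continuous_eval _ fun L => ?_
    have hL : ∀ z : 𝕜, z = ((RCLike.re z : ℝ) : 𝕜) + ((RCLike.im z : ℝ) : 𝕜) * RCLike.I :=
      fun z => (RCLike.re_add_im z).symm
    let Lr : C(M, ℝ) →L[ℝ] ℝ := (RCLike.reCLM (K := 𝕜)).comp
      ((L.restrictScalars ℝ).comp (pullL 𝕜 θ hθ))
    let Li : C(M, ℝ) →L[ℝ] ℝ := (RCLike.imCLM (K := 𝕜)).comp
      ((L.restrictScalars ℝ).comp (pullL 𝕜 θ hθ))
    have h1 := continuous_tr_functional hl hr h Lr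
    have h2 := continuous_tr_functional hl hr h Li
    have h3 : Continuous fun σ : M => ((Lr (tr hl h σ) : ℝ) : 𝕜) +
        ((Li (tr hl h σ) : ℝ) : 𝕜) * RCLike.I :=
      (RCLike.continuous_ofReal.comp h1).add
        ((RCLike.continuous_ofReal.comp h2).mul continuous_const)
    refine h3.congr fun σ => ?_
    exact (hL (L (pull 𝕜 θ hθ (tr hl h σ)))).symm
  refine (isCompact_range hcont).closure_of_subset ?_
  rintro _ ⟨_, ⟨a, rfl⟩, rfl⟩
  exact ⟨θ a, by
    show toWeakSpace 𝕜 (S →ᵇ 𝕜) (pull 𝕜 θ hθ (tr hl h (θ a))) = _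
    rw [← translate_pull 𝕜 hl θ hθ hmul]⟩

theorem exists_functional (hl : ∀ a : M, Continuous fun t => a * t)
    (hr : ∀ a : M, Continuous fun t => t * a) (θ : S → M) (hθ : Continuous θ)
    (hmul : ∀ s t, θ (s * t) = θ s * θ t) (hdense : DenseRange θ)
    (m : WAP 𝕜 S →ₗ[𝕜] 𝕜) (hm : IsLIM m) :
    ∃ Λ : C(M, ℝ) → ℝ, Λ 0 ≠ Λ 1 ∧ ∀ (σ : M) (f : C(M, ℝ)), Λ (f.comp ⟨fun t => σ * t, hl σ⟩) = Λ f := by
  have hW := pull_mem_WAP 𝕜 hl hr θ hθ hmul
  let Λ₀ : C(M, ℝ) →ₗ[ℝ] ℝ :=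
    { toFun := fun h => RCLike.re (m ⟨pull 𝕜 θ hθ h, hW h⟩)
      map_add' := fun h h' => by
        rw [← map_add (RCLike.re : 𝕜 →+ ℝ), ← map_add m]
        congr 2
        ext t
        simp
      map_smul' := fun c h => by
        have : (⟨pull 𝕜 θ hθ (c • h), hW (c • h)⟩ : WAP 𝕜 S) = (c : 𝕜) • ⟨pull 𝕜 θ hθ h, hW h⟩ := by
          ext t
          simp
        rw [this, map_smul, smul_eq_mul, RCLike.re_ofReal_mul]
        rfl }
  have hΛ0 : ∀ h, Λ₀ h = RCLike.re (m ⟨pull 𝕜 θ hθ h, hW h⟩) := fun h => rfl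
  have hpos : ∀ h : C(M, ℝ), 0 ≤ h → 0 ≤ Λ₀ h := by
    intro h hh
    have h1 := hm.nonneg ⟨pull 𝕜 θ hθ h, hW h⟩ (fun t => by
      show (0 : 𝕜) ≤ ((h (θ t) : ℝ) : 𝕜)
      exact RCLike.ofReal_nonneg.2 (hh (θ t)))
    rw [hΛ0]
    exact (RCLike.nonneg_iff.1 h1).1
  have hone : Λ₀ 1 = 1 := by
    rw [hΛ0]
    have : (⟨pull 𝕜 θ hθ 1, hW 1⟩ : WAP 𝕜 S) = ⟨1, one_mem_WAP 𝕜⟩ := by
      ext t
      simp
    rw [this, hm.map_one, RCLike.one_re]
  have hbound : ∀ h : C(M, ℝ), ‖Λ₀ h‖ ≤ 1 * ‖h‖ := by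
    intro h
    have hn : ∀ t, |h t| ≤ ‖h‖ := fun t => by
      have := h.norm_coe_le_norm t
      rwa [Real.norm_eq_abs] at this
    have h1 := hpos (‖h‖ • 1 - h) (fun t => by
      show (0 : ℝ) ≤ ‖h‖ * 1 - h t
      have := (abs_le.1 (hn t)).2
      linarith)
    have h2 := hpos (‖h‖ • 1 + h) (fun t => by
      show (0 : ℝ) ≤ ‖h‖ * 1 + h t
      have := (abs_le.1 (hn t)).1
      linarith)
    rw [map_sub, map_smul, hone, smul_eq_mul, mul_one] at h1
    rw [map_add, map_smul, hone, smul_eq_mul, mul_one] at h2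
    rw [Real.norm_eq_abs, one_mul, abs_le]
    constructor <;> linarith
  let Λ : C(M, ℝ) →L[ℝ] ℝ := Λ₀.mkContinuous 1 hbound
  have hΛΛ : ∀ h, Λ h = Λ₀ h := fun h => rfl
  refine ⟨Λ, ?_, ?_⟩
  · rw [map_zero, hΛΛ, hone]
    norm_num
  · intro σ f
    have hc := continuous_tr_functional hl hr f Λ
    have heq : (fun σ => Λ (tr hl f σ)) = fun _ => Λ f := by
      refine hdense.equalizer hc continuous_const ?_
      funext s
      show Λ (tr hl f (θ s)) = Λ f
      rw [hΛΛ, hΛΛ, hΛ0, hΛ0]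
      have h1 := hm.invariant s ⟨pull 𝕜 θ hθ f, hW f⟩
      rw [← h1]
      congr 2
      ext t
      show ((tr hl f (θ s) (θ t) : ℝ) : 𝕜) = ((f (θ (s * t)) : ℝ) : 𝕜)
      rw [tr_apply, hmul]
    exact congrFun heq σ

end

end Pool.Agent.Helper446_WAP
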